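import Mathlib
import Pool.Agent.H21.EW.Lower

/-!
The exact minimum degree threshold for the even wheel `W_{2k}` on `n` vertices, for all `k ≥ 3` and
all `n ≥ 10 ^ 9 * k`.
-/

namespace Pool.Agent.Results.MP_87b838_co.LargeOrder

/-- The number `d(n, k)` of the problem: `⌊(n + k) / 2⌋` if `k - 1` and `⌊(n + k) / 2⌋` are odd, and
`⌈(n + k) / 2⌉` otherwise. -/
def d (n k : ℕ) : ℕ :=
  if (k - 1) % 2 = 1 ∧ ((n + k) / 2) % 2 = 1 then (n + k) / 2 else (n + k + 1) / 2

/-- `G` contains the wheel `W_{2k}`: a hub `h` adjacent to all vertices of a cycle of length `2k`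
with (distinct) vertices `c i`, `i ∈ ZMod (2k)`. -/
def ContainsWheel {V : Type*} (G : SimpleGraph V) (k : ℕ) : Prop :=
  ∃ (h : V) (c : ZMod (2 * k) → V), Function.Injective c ∧
    (∀ i, G.Adj h (c i)) ∧ ∀ i, G.Adj (c i) (c (i + 1))

/-- For all `k ≥ 3` and `n ≥ 10 ^ 9 * k`, every graph on `n` vertices with minimum degree at least
`d(n, k)` contains `W_{2k}`; and for all `3 ≤ k < n / 3` there is a graph on `n` vertices with
minimum degree exactly `d(n, k) - 1` without `W_{2k}`. -/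
theorem result :
    (∀ n k : ℕ, 3 ≤ k → 10 ^ 9 * k ≤ n → ∀ (G : SimpleGraph (Fin n)) [DecidableRel G.Adj],
      d n k ≤ G.minDegree → ContainsWheel G k) ∧
    (∀ n k : ℕ, 3 ≤ k → 3 * k < n → ∃ (G : SimpleGraph (Fin n)) (_ : DecidableRel G.Adj),
      G.minDegree = d n k - 1 ∧ ¬ ContainsWheel G k) :=
  ⟨fun n k hk hn G _ hG => Pool.Agent.H21.EW.upper G n k (Fintype.card_fin n) hk hn
      (fun v => le_trans hG (G.minDegree_le_degree v)),
    fun n k hk hn => Pool.Agent.H21.EW.lower n k hk hn⟩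

end Pool.Agent.Results.MP_87b838_co.LargeOrder
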